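import Mathlib
import Pool.Agent.Lib.MP_b771e3_an.Final

set_option autoImplicit false

namespace Pool.Agent.Results.MP_b771e3_an.DiagonalFourth

/-- If holomorphic automorphisms `f n` of `ℂ²` satisfy `C‖z‖ ≤ ‖f n z‖ ≤ D‖z‖` on the unit ball with
`0 < C < D < 1` and `D ^ 4 < C`, and all have diagonal derivative at `0`, then their basin of
attraction of `0` is biholomorphic to `ℂ²`. -/
theorem result :
    ∀ (f : ℕ → EuclideanSpace ℂ (Fin 2) → EuclideanSpace ℂ (Fin 2)) (C D : ℝ),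
      0 < C → C < D → D < 1 → D ^ 4 < C →
      (∀ n, Differentiable ℂ (f n)) →
      (∀ n, ∃ g : EuclideanSpace ℂ (Fin 2) → EuclideanSpace ℂ (Fin 2),
          Differentiable ℂ g ∧ Function.LeftInverse g (f n) ∧ Function.RightInverse g (f n)) →
      (∀ n (z : EuclideanSpace ℂ (Fin 2)), ‖z‖ < 1 →
          C * ‖z‖ ≤ ‖f n z‖ ∧ ‖f n z‖ ≤ D * ‖z‖) →
      (∀ n, ∃ d : Fin 2 → ℂ, ∀ (v : EuclideanSpace ℂ (Fin 2)) (i : Fin 2),
          EuclideanSpace.proj i (fderiv ℂ (f n) 0 v) = d i * EuclideanSpace.proj i v) →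
      ∃ φ ψ : EuclideanSpace ℂ (Fin 2) → EuclideanSpace ℂ (Fin 2),
        DifferentiableOn ℂ φ
          {z | ∃ x : ℕ → EuclideanSpace ℂ (Fin 2), x 0 = z ∧ (∀ k, x (k + 1) = f k (x k)) ∧
            Filter.Tendsto x Filter.atTop (nhds 0)} ∧
        Differentiable ℂ ψ ∧
        (∀ w, ψ w ∈ {z | ∃ x : ℕ → EuclideanSpace ℂ (Fin 2), x 0 = z ∧
            (∀ k, x (k + 1) = f k (x k)) ∧ Filter.Tendsto x Filter.atTop (nhds 0)}) ∧
        (∀ z ∈ {z | ∃ x : ℕ → EuclideanSpace ℂ (Fin 2), x 0 = z ∧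
            (∀ k, x (k + 1) = f k (x k)) ∧ Filter.Tendsto x Filter.atTop (nhds 0)},
            ψ (φ z) = z) ∧
        ∀ w, φ (ψ w) = w :=
  Pool.Agent.Lib.MP_b771e3_an.final

end Pool.Agent.Results.MP_b771e3_an.DiagonalFourth
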